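import Pool.Agent.W2helper23.SG.Stm

/-!
Project SG, piece SG8: the quadratic step (passage to a large extension).
-/

set_option autoImplicit false

open NumberField NumberField.ComplexEmbedding Pool.Agent.R389 Pool.Agent.K4H74.ST
open Pool.Agent.W2helper23.SG

namespace Pool.Agent.W2helper77.SG

theorem fix_iff {F E N : Type} [Field F] [Field E] [Field N] [Algebra F E] [Algebra E N]
    [Algebra F N] [IsScalarTower F E N] (g : N ≃ₐ[F] N) :
    (∃ h : N ≃ₐ[E] N, h.restrictScalars F = g) ↔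
      ∀ x : E, g (algebraMap E N x) = algebraMap E N x := by
  constructor
  · rintro ⟨h, rfl⟩ x
    exact h.commutes x
  · intro hg
    refine ⟨AlgEquiv.ofRingEquiv (f := g.toRingEquiv) hg, ?_⟩
    ext x
    rfl

theorem quadE_ext (F E N N₁ : Type) [Field F] [Field E] [Field N] [Field N₁] [Algebra F E]
    [Algebra E N] [Algebra F N] [IsScalarTower F E N] [Normal F N] [Algebra F N₁] [Algebra N N₁]
    [Algebra E N₁] [IsScalarTower F N N₁] [IsScalarTower E N N₁] [IsScalarTower F E N₁]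
    (s : (N ≃ₐ[F] N) →* ℂˣ) (t : N ≃ₐ[F] N) (t₁ : N₁ ≃ₐ[F] N₁)
    (ht₁ : AlgEquiv.restrictNormalHom N t₁ = t) (h : QuadE F E N s t) :
    QuadE F E N₁ (s.comp (AlgEquiv.restrictNormalHom N)) t₁ := by
  obtain ⟨h1, h2, h3⟩ := h
  refine ⟨fun g => h1 _, ?_, fun g => ?_⟩
  · rw [MonoidHom.comp_apply, ht₁, h2]
  · rw [MonoidHom.comp_apply, h3, fix_iff, fix_iff]
    refine forall_congr' fun x => ?_
    have e : algebraMap N N₁ ((AlgEquiv.restrictNormalHom N g) (algebraMap E N x)) =
        g (algebraMap N N₁ (algebraMap E N x)) :=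
      AlgEquiv.restrictNormal_commutes g N _
    rw [← IsScalarTower.algebraMap_apply E N N₁] at e
    rw [← e]
    constructor
    · intro h4
      rw [h4, ← IsScalarTower.algebraMap_apply E N N₁]
    · intro h4
      rw [IsScalarTower.algebraMap_apply E N N₁] at h4
      exact (algebraMap N N₁).injective h4

theorem SG8 (hA : P_SG8A) (hB : P_SG8B) : P_SG8 := by
  intro M _ B hT hL F E N _ _ _ _ _ _ _ _ _ _ _ s t hs G G' hG hG'
  classical
  refine ⟨fun l hl => ?_, hA M B F E N s t hs G hG⟩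
  obtain ⟨β, hβ⟩ := exists_sign E {l}
  obtain ⟨N₁, _, _, _, _, _, _, hw⟩ := exists_ext F N {algebraMap E N β, -1}
  let _ : Algebra E N₁ := ((algebraMap N N₁).comp (algebraMap E N)).toAlgebra
  have : IsScalarTower E N N₁ := IsScalarTower.of_algebraMap_eq fun _ => rfl
  have : IsScalarTower F E N₁ := IsScalarTower.of_algebraMap_eq fun x => by
    rw [IsScalarTower.algebraMap_apply F N N₁, IsScalarTower.algebraMap_apply F E N]
    rfl
  obtain ⟨t₁, ht₁⟩ := AlgEquiv.restrictNormalHom_surjective (F := F) (K₁ := N) N₁ t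
  obtain ⟨w, hw1⟩ := hw (algebraMap E N β) (by simp)
  obtain ⟨j, hj⟩ := hw (-1) (by simp)
  have hq := quadE_ext F E N N₁ s t t₁ ht₁ hs
  refine hB M B hT hL F E N₁ _ t₁ hq G G' hG hG' j w β l ?_ hw1 hl fun φ hφ => ?_
  · rw [hj, map_neg, map_one]
  · have := hβ φ hφ
    simpa only [Set.mem_singleton_iff] using this

end Pool.Agent.W2helper77.SG
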